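import Pool.Agent.Y808.LB.Stm

/-!
# The induction on the height
-/

set_option autoImplicit false

open IsLocalRing BQ Pool.Agent.H40.BP

namespace Pool.Agent.Y708.LB

open Pool.Agent.Y808.LB

theorem af_equiv {R S : Type} [CommRing R] [CommRing S] (e : R ≃+* S) (h : AF R) : AF S :=
  fun m => IdemFree.of_equiv (MvPolynomial.mapEquiv (Fin m) e) (h m)

theorem t_GLOB : Pool.Agent.Y808.LB.S_STEP → Pool.Agent.Y808.LB.S_GLOB := by
  intro hS A _ H
  have key : ∀ h : ℕ∞, ∀ (q : Ideal A) [q.IsPrime], q.height = h →
      AF (Localization.AtPrime q) := by
    intro h
    induction h using WellFoundedLT.induction with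
    | ind h ih =>
      intro q hq hqh
      rcases H q with h1 | ⟨h1, h2⟩
      · exact h1
      · refine hS (Localization.AtPrime q) (fun q' hq' hne => ?_) h2
        have hp : (q'.comap (algebraMap A (Localization.AtPrime q))).IsPrime := inferInstance
        have hlt : q' < maximalIdeal (Localization.AtPrime q) :=
          lt_of_le_of_ne (IsLocalRing.le_maximalIdeal hq'.ne_top) hne
        have h3 : q'.height < (maximalIdeal (Localization.AtPrime q)).height :=
          Ideal.height_strict_mono_of_isPrime_of_isPrime hlt
        have h4 : (q'.under A).height = q'.height := IsLocalization.height_under q.primeCompl q'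
        have h5 : ((maximalIdeal (Localization.AtPrime q)).under A).height =
            (maximalIdeal (Localization.AtPrime q)).height :=
          IsLocalization.height_under q.primeCompl _
        have h6 : (maximalIdeal (Localization.AtPrime q)).under A = q :=
          Localization.AtPrime.under_maximalIdeal
        rw [h6] at h5
        rw [← h4, ← h5, hqh] at h3
        have h7 := ih _ h3 (q'.comap (algebraMap A (Localization.AtPrime q))) rfl
        exact af_equiv (IsLocalization.localizationLocalizationAtPrimeIsoLocalization
          q.primeCompl q').toRingEquiv h7
  intro q hq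
  exact key _ q rfl

end Pool.Agent.Y708.LB
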